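import Pool.Agent.H176.DT.Stm

/-!
# Project DT: comparison of finitely many monomials, stages with denominators
-/

set_option autoImplicit false

universe u

namespace Pool.Agent.H737.DT

open Pool.Agent.W418.LU2 Pool.Agent.H176.DT

variable {F : Type u} [Field F]

/-- the monomials in `x` -/
def NN {ι : Type} [Fintype ι] {x : ι → F} (hx : ∀ i, x i ≠ 0) : Submonoid F where
  carrier := {n | ∃ δ : ι → ℤ, n = mo x δ}
  mul_mem' := by
    rintro a b ⟨δ, rfl⟩ ⟨γ, rfl⟩
    exact ⟨δ + γ, (mo_add hx δ γ).symm⟩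
  one_mem' := ⟨0, (mo_zero x).symm⟩

lemma Mo_NN {ι : Type} [Fintype ι] {x : ι → F} (hx : ∀ i, x i ≠ 0) (V : ValuationSubring F) :
    Mo V.toSubring (NN hx) := by
  refine ⟨?_, ?_, fun n _ => V.mem_or_inv_mem n⟩
  · rintro _ ⟨δ, rfl⟩
    exact mo_ne_zero hx δ
  · rintro _ ⟨δ, rfl⟩
    exact ⟨-δ, (mo_neg x δ).symm⟩

lemma PMon.pow' {P : Subring F} {ι : Type} [Fintype ι] {x : ι → F} (hx : ∀ i, x i ≠ 0) {g : F}
    (hg : PMon P x g) (n : ℕ) : PMon P x (g ^ n) := by
  induction n with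
  | zero => rw [pow_zero]; exact PMon.one
  | succ n ih => rw [pow_succ]; exact ih.mul hx hg

lemma PMon.prod' {P : Subring F} {ι : Type} [Fintype ι] {x : ι → F} (hx : ∀ i, x i ≠ 0)
    {κ : Type} (s : Finset κ) (g : κ → F) (hg : ∀ k, PMon P x (g k)) :
    PMon P x (∏ k ∈ s, g k) := by
  classical
  induction s using Finset.induction_on with
  | empty => rw [Finset.prod_empty]; exact PMon.one
  | insert a s ha ih => rw [Finset.prod_insert ha]; exact (hg a).mul hx ih

lemma PMon.var {P : Subring F} {ι : Type} [Fintype ι] (x : ι → F) (i : ι) : PMon P x (x i) := by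
  classical
  refine ⟨1, one_ne_zero, P.one_mem, by rw [inv_one]; exact P.one_mem, Pi.single i 1, ?_⟩
  rw [mo_single, one_mul]

/-- denominators of monomials -/
lemma den_mo {P A : Subring F} {ι : Type} [Fintype ι] {x : ι → F} (hx : ∀ i, x i ≠ 0) {β : F}
    (hβ : β ∈ A) (hβP : PMon P x β) (hβx : ∀ i, β * x i ∈ A) (δ : ι → ℤ) :
    ∃ b ∈ A, PMon P x b ∧ b * mo x δ ∈ A := by
  refine ⟨∏ i, ((β * x i) ^ (-δ i).toNat * β ^ (δ i).toNat), ?_, ?_, ?_⟩
  · exact A.prod_mem fun i _ => A.mul_mem (A.pow_mem (hβx i) _) (A.pow_mem hβ _)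
  · exact PMon.prod' hx _ _ fun i => (PMon.pow' hx (hβP.mul hx (PMon.var x i)) _).mul hx
      (PMon.pow' hx hβP _)
  · have h1 : (∏ i, ((β * x i) ^ (-δ i).toNat * β ^ (δ i).toNat)) * mo x δ =
        ∏ i, (β ^ (-δ i).toNat * (β * x i) ^ (δ i).toNat) := by
      unfold mo
      rw [← Finset.prod_mul_distrib]
      refine Finset.prod_congr rfl fun i _ => ?_
      have h2 : x i ^ (-δ i).toNat * x i ^ δ i = x i ^ (δ i).toNat := by
        rw [← zpow_natCast (x i) (-δ i).toNat, ← zpow_natCast (x i) (δ i).toNat,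
          ← zpow_add₀ (hx i)]
        congr 1
        omega
      rw [mul_pow, mul_pow, ← h2]
      ring
    rw [h1]
    exact A.prod_mem fun i _ => A.mul_mem (A.pow_mem hβ _) (A.pow_mem (hβx i) _)

/-- common denominators -/
lemma den_all {P A : Subring F} {ι : Type} [Fintype ι] {x : ι → F} (hx : ∀ i, x i ≠ 0) {S : Set F}
    (hS : S.Finite) (h : ∀ s ∈ S, ∃ b ∈ A, PMon P x b ∧ b * s ∈ A) :
    ∃ b ∈ A, PMon P x b ∧ ∀ s ∈ S, b * s ∈ A := by
  induction S, hS using Set.Finite.induction_on with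
  | empty => exact ⟨1, A.one_mem, PMon.one, fun s hs => hs.elim⟩
  | @insert a S ha hS ih =>
    obtain ⟨b, hb, hbP, hbS⟩ := ih fun s hs => h s (Set.mem_insert_of_mem _ hs)
    obtain ⟨c, hc, hcP, hcS⟩ := h a (Set.mem_insert _ _)
    refine ⟨b * c, A.mul_mem hb hc, hbP.mul hx hcP, ?_⟩
    rintro s (rfl | hs)
    · rw [mul_assoc]; exact A.mul_mem hb hcS
    · rw [mul_comm b, mul_assoc]; exact A.mul_mem hc (hbS s hs)

lemma closure_closure_union (U W : Set F) :
    Subring.closure ((Subring.closure U : Set F) ∪ W) = Subring.closure (U ∪ W) := by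
  apply le_antisymm
  · rw [Subring.closure_le]
    rintro y (hy | hy)
    · exact Subring.closure_mono Set.subset_union_left hy
    · exact Subring.subset_closure (Or.inr hy)
  · rw [Subring.closure_le]
    rintro y (hy | hy)
    · exact Subring.subset_closure (Or.inl (Subring.subset_closure hy))
    · exact Subring.subset_closure (Or.inr hy)

lemma le_lo (A S : Subring F) : S ≤ lo A S := fun a ha =>
  ⟨a, ha, 1, S.one_mem, one_ne_zero, by rw [inv_one]; exact A.one_mem, by simp⟩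

theorem ref : S_ref.{u} := by
  intro F _ V A T ι _ x hSt G hG hGx
  classical
  obtain ⟨β, hβ, hβP, hβT, hβx⟩ := hSt.den
  have hx := hSt.reg.ne
  set S0 : Subring F := Subring.closure ((A : Set F) ∪ T) with hS0
  have hS0V : S0 ≤ V.toSubring := (le_lo V.toSubring S0).trans hSt.reg.PA
  have hcl : Subring.closure ((S0 : Set F) ∪ ∅) = S0 := by
    rw [Set.union_empty, Subring.closure_eq]
  have hstg : Stg V.toSubring S0 (NN hx) ∅ x := by
    refine ⟨Set.finite_empty, fun t ht => ht.elim, fun t ht => ht.elim, fun i => ?_, ?_⟩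
    · exact ⟨Pi.single i 1, (mo_single x i).symm⟩
    · rw [hcl]; exact hSt.reg
  obtain ⟨T1, x', -, h1, h2, h3⟩ := cmp_all (loc_V V) (Mo_NN hx V) hS0V hG hstg
    (by rw [hcl]; exact hGx)
  have hcl' : Subring.closure ((S0 : Set F) ∪ T1) = Subring.closure ((A : Set F) ∪ (T ∪ T1)) := by
    rw [hS0, closure_closure_union, Set.union_assoc]
  have hle : PP V A T ≤ PP V A (T ∪ T1) := by
    refine lo_mono (Subring.closure_mono ?_)
    exact Set.union_subset_union_right _ Set.subset_union_left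
  have hreg : RegP V.toSubring (PP V A (T ∪ T1)) x' := by
    have := h1.reg
    rw [hcl'] at this
    exact this
  have hx' := hreg.ne
  have hPM : ∀ g, PMon (PP V A T) x g → PMon (PP V A (T ∪ T1)) x' g := fun g hg =>
    hg.ref hx hx' hle h2
  refine ⟨T ∪ T1, x', Set.subset_union_left, ⟨hSt.fin.union h1.fin, hreg, ?_⟩, h2, fun i => h1.xN i,
    hPM, fun g hg hgV => ?_⟩
  · obtain ⟨b, hb, hbP, hbS⟩ := den_all (P := PP V A T) (A := A) hx
      (S := (T ∪ T1) ∪ Set.range x') ((hSt.fin.union h1.fin).union (Set.finite_range _)) (by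
        rintro s ((hs | hs) | ⟨i, rfl⟩)
        · exact ⟨β, hβ, hβP, hβT s hs⟩
        · obtain ⟨δ, rfl⟩ := h1.TN s hs
          exact den_mo hx hβ hβP hβx δ
        · obtain ⟨δ, hδ⟩ := h1.xN i
          rw [hδ]
          exact den_mo hx hβ hβP hβx δ)
    exact ⟨b, hb, hPM b hbP, fun t ht => hbS t (Or.inl ht), fun i => hbS _ (Or.inr ⟨i, rfl⟩)⟩
  · have := h3 g hg hgV
    rw [hcl'] at this
    exact this

end Pool.Agent.H737.DT
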